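import Pool.Agent.MP_56ff7a_an.Defs

/-!
Weak semiprojectivity.
-/

namespace Pool.Agent.MP_56ff7a_an

open scoped ENNReal

/-- Weak semiprojectivity of a subalgebra `A` of a C*-algebra: for every sequence of separable
C*-algebras, star homomorphisms to the product modulo the sum lift to the product. -/
def IsWeaklySemiprojective {C : Type} [CStarAlgebra C] (A : StarSubalgebra ℂ C) : Prop :=
  ∀ (B : ℕ → Type) [∀ n, NonUnitalCStarAlgebra (B n)]
    [∀ n, TopologicalSpace.SeparableSpace (B n)], Lifts A (lp B ∞) (nullSequences B)

end Pool.Agent.MP_56ff7a_an
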